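/-
helper50. MAD: module GRE (greedy choice of the walks, then paths).
-/
import Pool.Agent.H20.MAD.Def
import Pool.Agent.H50.MRW.EXT

set_option autoImplicit false

namespace Pool.MAD

open Finset
open scoped Classical

theorem gre_nn {V : Type} (x : V) (w : List V) : 0 ≤ cnt [x] w := by
  induction w with
  | nil => simp [cnt]
  | cons a w ih =>
    simp only [cnt]
    split_ifs <;> linarith

theorem gre_mem {V : Type} (x : V) (w : List V) (h : x ∈ w) : 1 ≤ cnt [x] w := by
  induction w with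
  | nil => simp at h
  | cons a w ih =>
    simp only [cnt]
    rcases List.mem_cons.1 h with h | h
    · rw [if_pos h.symm]
      have := gre_nn x w
      linarith
    · have := ih h
      split_ifs <;> linarith

theorem gre_greedy {ι V : Type} [Fintype ι] [Fintype V] {I : ι → Type} (S : ∀ e, Finset (I e))
    (p : ∀ e, I e → ℝ) (α : ∀ e, I e → List V) (Fb : Finset V) (η : ℝ)
    (hp : ∀ e, ∀ s ∈ S e, 0 ≤ p e s) (h1 : ∀ e, ∑ s ∈ S e, p e s = 1)
    (hη : ∀ e, ∑ x : V, (∑ s ∈ S e, p e s * cnt [x] (α e s)) ^ 2 ≤ η ^ 2) (hη0 : 0 ≤ η)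
    (htot : 4 * (Fintype.card ι : ℝ) ^ 2 * η ^ 2 + 1 / 4 + Fb.card * η < 1) :
    ∃ s : ∀ e, I e, (∀ e, s e ∈ S e) ∧ (∀ e, ∀ x ∈ α e (s e), x ∉ Fb) ∧
      ∀ e e', e ≠ e' → ∀ x ∈ α e (s e), x ∉ α e' (s e') := by
  obtain ⟨g, hg⟩ : ∃ g : ι → V → ℝ, ∀ e x, g e x = ∑ s ∈ S e, p e s * cnt [x] (α e s) :=
    ⟨_, fun _ _ => rfl⟩
  simp only [← hg] at hη
  have hg0 : ∀ e x, 0 ≤ g e x := by
    intro e x
    rw [hg]
    exact Finset.sum_nonneg fun s hs => mul_nonneg (hp e s hs) (gre_nn _ _)
  have hg1 : ∀ e x, g e x ≤ η := by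
    intro e x
    have h2 : g e x ^ 2 ≤ η ^ 2 :=
      (Finset.single_le_sum (f := fun x => g e x ^ 2) (fun i _ => sq_nonneg _)
        (Finset.mem_univ x)).trans (hη e)
    exact abs_le_of_sq_le_sq' h2 hη0 |>.2
  obtain ⟨G, hG⟩ : ∃ G : V → ℝ, ∀ w, G w = ∑ e, g e w := ⟨fun w => ∑ e, g e w, fun _ => rfl⟩
  have hG0 : ∀ w, 0 ≤ G w := fun w => by
    rw [hG]; exact Finset.sum_nonneg fun e _ => hg0 e w
  have hgG : ∀ e w, g e w ≤ G w := by
    intro e w
    rw [hG]
    exact Finset.single_le_sum (f := fun e => g e w) (fun i _ => hg0 i w) (Finset.mem_univ e)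
  have hGg : ∀ e, ∑ x, G x * g e x ≤ Fintype.card ι * η ^ 2 := by
    intro e
    have e1 : ∑ x, G x * g e x = ∑ e', ∑ x, g e' x * g e x := by
      rw [Finset.sum_comm]
      refine Finset.sum_congr rfl fun x _ => ?_
      rw [hG, Finset.sum_mul]
    rw [e1]
    have e2 : ∀ e' ∈ (univ : Finset ι), ∑ x, g e' x * g e x ≤ η ^ 2 := by
      intro e' _
      have e3 : ∑ x, g e' x * g e x ≤ ∑ x, (g e' x ^ 2 / 2 + g e x ^ 2 / 2) := by
        refine Finset.sum_le_sum fun x _ => ?_
        nlinarith [sq_nonneg (g e' x - g e x)]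
      rw [Finset.sum_add_distrib, ← Finset.sum_div, ← Finset.sum_div] at e3
      linarith [hη e, hη e']
    refine (Finset.sum_le_sum e2).trans ?_
    simp
  have hnon : ∀ e, (S e).Nonempty := by
    intro e
    by_contra h
    rw [Finset.not_nonempty_iff_eq_empty] at h
    have := h1 e
    rw [h] at this
    simp at this
  have hexp : ∀ (e : ι) (φ : V → ℝ),
      ∑ i ∈ S e, p e i * ∑ x, φ x * cnt [x] (α e i) = ∑ x, φ x * g e x := by
    intro e φ
    simp only [hg, Finset.mul_sum]
    rw [Finset.sum_comm]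
    refine Finset.sum_congr rfl fun x _ => ?_
    refine Finset.sum_congr rfl fun i _ => ?_
    ring
  have hex : ∀ (e : ι) (φ : V → ℝ), ∑ x, φ x * g e x < 1 →
      ∃ i ∈ S e, ∑ x, φ x * cnt [x] (α e i) < 1 := by
    intro e φ h
    by_contra hc
    push Not at hc
    rw [← hexp] at h
    have h2 : ∑ i ∈ S e, p e i ≤ ∑ i ∈ S e, p e i * ∑ x, φ x * cnt [x] (α e i) := by
      refine Finset.sum_le_sum fun i hi => ?_
      have := mul_le_mul_of_nonneg_left (hc i hi) (hp e i hi)
      linarith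
    rw [h1] at h2
    linarith
  have hmain : ∀ T : Finset ι, ∃ s : ∀ e, I e,
      (∀ e ∈ T, s e ∈ S e ∧ 4 * (Fintype.card ι : ℝ) * ∑ x, G x * cnt [x] (α e (s e)) ≤ 1 ∧
        ∀ x ∈ α e (s e), x ∉ Fb) ∧
      ∀ e ∈ T, ∀ e' ∈ T, e ≠ e' → ∀ x ∈ α e (s e), x ∉ α e' (s e') := by
    intro T
    induction T using Finset.induction_on with
    | empty =>
      exact ⟨fun e => (hnon e).choose, by simp, by simp⟩
    | insert a T ha ih =>
      obtain ⟨s, hs1, hs2⟩ := ih
      have hcard : 0 < (Fintype.card ι : ℝ) := by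
        have : 0 < Fintype.card ι := Fintype.card_pos_iff.2 ⟨a⟩
        exact_mod_cast this
      obtain ⟨φ, hφ⟩ : ∃ φ : V → ℝ, ∀ v, φ v = 4 * (Fintype.card ι : ℝ) * G v +
          (∑ e' ∈ T, cnt [v] (α e' (s e'))) + (if v ∈ Fb then (1 : ℝ) else 0) :=
        ⟨_, fun _ => rfl⟩
      have hA0 : ∀ v, 0 ≤ ∑ e' ∈ T, cnt [v] (α e' (s e')) := fun v =>
        Finset.sum_nonneg fun e' _ => gre_nn _ _
      have hB0 : ∀ v, 0 ≤ (if v ∈ Fb then (1 : ℝ) else 0) := by
        intro v; split_ifs <;> norm_num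
      have hC0 : ∀ v, 0 ≤ 4 * (Fintype.card ι : ℝ) * G v := fun v =>
        mul_nonneg (by linarith) (hG0 v)
      have hφ0 : ∀ v, 0 ≤ φ v := by
        intro v
        rw [hφ]
        linarith [hA0 v, hB0 v, hC0 v]
      have hval : ∑ w, φ w * g a w < 1 := by
        have e1 : ∑ w, φ w * g a w = 4 * (Fintype.card ι : ℝ) * ∑ w, G w * g a w +
            (∑ e' ∈ T, ∑ w, cnt [w] (α e' (s e')) * g a w) + ∑ w ∈ Fb, g a w := by
          have e2 : ∀ w, φ w * g a w = 4 * (Fintype.card ι : ℝ) * (G w * g a w) +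
              (∑ e' ∈ T, cnt [w] (α e' (s e')) * g a w) +
              (if w ∈ Fb then g a w else 0) := by
            intro w
            rw [hφ, add_mul, add_mul, Finset.sum_mul, ite_mul, one_mul, zero_mul, mul_assoc]
          simp only [e2]
          rw [Finset.sum_add_distrib, Finset.sum_add_distrib, ← Finset.mul_sum]
          congr 1
          · congr 1
            rw [Finset.sum_comm]
          · rw [Finset.sum_ite_mem]
            simp
        rw [e1]
        have h2 : ∑ e' ∈ T, ∑ w, cnt [w] (α e' (s e')) * g a w ≤ 1 / 4 := by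
          have h3 : ∀ e' ∈ T, ∑ w, cnt [w] (α e' (s e')) * g a w ≤
              1 / (4 * (Fintype.card ι : ℝ)) := by
            intro e' he'
            refine (Finset.sum_le_sum fun w _ =>
              mul_le_mul_of_nonneg_left (hgG a w) (gre_nn w (α e' (s e')))).trans ?_
            rw [le_div_iff₀ (by linarith)]
            have h4 := (hs1 e' he').2.1
            have h5 : ∑ w, cnt [w] (α e' (s e')) * G w = ∑ w, G w * cnt [w] (α e' (s e')) :=
              Finset.sum_congr rfl fun w _ => mul_comm _ _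
            rw [h5]
            linarith
          refine (Finset.sum_le_sum h3).trans ?_
          rw [Finset.sum_const, nsmul_eq_mul]
          have h4 : (T.card : ℝ) ≤ (Fintype.card ι : ℝ) := by
            exact_mod_cast Finset.card_le_univ T
          rw [mul_one_div, div_le_div_iff₀ (by linarith) (by norm_num)]
          linarith
        have h5 : ∑ w ∈ Fb, g a w ≤ Fb.card * η := by
          refine (Finset.sum_le_sum fun w _ => hg1 a w).trans ?_
          rw [Finset.sum_const, nsmul_eq_mul]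
        have h6 : 4 * (Fintype.card ι : ℝ) * ∑ w, G w * g a w ≤
            4 * (Fintype.card ι : ℝ) ^ 2 * η ^ 2 := by
          have h7 := mul_le_mul_of_nonneg_left (hGg a)
            (show 0 ≤ 4 * (Fintype.card ι : ℝ) by linarith)
          calc _ ≤ 4 * (Fintype.card ι : ℝ) * ((Fintype.card ι : ℝ) * η ^ 2) := h7
            _ = _ := by ring
        linarith
      obtain ⟨i, hi, hi2⟩ := hex a φ hval
      have hone : ∀ x ∈ α a i, φ x < 1 := by
        intro x hx
        have h2 : φ x * 1 ≤ φ x * cnt [x] (α a i) :=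
          mul_le_mul_of_nonneg_left (gre_mem x _ hx) (hφ0 x)
        have h3 : φ x * cnt [x] (α a i) ≤ ∑ x, φ x * cnt [x] (α a i) :=
          Finset.single_le_sum (f := fun x => φ x * cnt [x] (α a i))
            (fun y _ => mul_nonneg (hφ0 y) (gre_nn _ _)) (Finset.mem_univ x)
        linarith
      have hF : ∀ x ∈ α a i, x ∉ Fb := by
        intro x hx hc
        have h2 := hone x hx
        rw [hφ, if_pos hc] at h2
        linarith [hA0 x, hC0 x]
      have hT : ∀ x ∈ α a i, ∀ e' ∈ T, x ∉ α e' (s e') := by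
        intro x hx e' he' hc
        have h2 := hone x hx
        rw [hφ] at h2
        have h3 : cnt [x] (α e' (s e')) ≤ ∑ e' ∈ T, cnt [x] (α e' (s e')) :=
          Finset.single_le_sum (f := fun e' => cnt [x] (α e' (s e')))
            (fun y _ => gre_nn _ _) he'
        linarith [hB0 x, hC0 x, gre_mem x _ hc]
      have hGi : 4 * (Fintype.card ι : ℝ) * ∑ x, G x * cnt [x] (α a i) ≤ 1 := by
        refine le_trans ?_ hi2.le
        rw [Finset.mul_sum]
        refine Finset.sum_le_sum fun x _ => ?_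
        rw [← mul_assoc]
        refine mul_le_mul_of_nonneg_right ?_ (gre_nn _ _)
        rw [hφ]
        linarith [hA0 x, hB0 x]
      refine ⟨Function.update s a i, ?_, ?_⟩
      · intro e he
        by_cases hea : e = a
        · subst hea
          rw [Function.update_self]
          exact ⟨hi, hGi, hF⟩
        · rw [Function.update_of_ne hea]
          exact hs1 e ((Finset.mem_insert.1 he).resolve_left hea)
      · intro e he e' he' hne x hx
        by_cases hea : e = a
        · have hea' : e' ≠ a := fun h => hne (hea.trans h.symm)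
          subst hea
          rw [Function.update_self] at hx
          rw [Function.update_of_ne hea']
          exact hT x hx e' ((Finset.mem_insert.1 he').resolve_left hea')
        · rw [Function.update_of_ne hea] at hx
          by_cases hea' : e' = a
          · subst hea'
            rw [Function.update_self]
            intro hc
            exact hT x hc e ((Finset.mem_insert.1 he).resolve_left hea) hx
          · rw [Function.update_of_ne hea']
            exact hs2 e ((Finset.mem_insert.1 he).resolve_left hea) e'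
              ((Finset.mem_insert.1 he').resolve_left hea') hne x hx
  obtain ⟨s, hs1, hs2⟩ := hmain univ
  exact ⟨s, fun e => (hs1 e (mem_univ _)).1, fun e => (hs1 e (mem_univ _)).2.2,
    fun e e' hne => hs2 e (mem_univ _) e' (mem_univ _) hne⟩

/-- a connection as a path function -/
theorem gre_path {V : Type} {N : V → Finset V} (l : List V) (u v : V) (h : Cn N u l v) :
    ∃ q : ℕ → V, q 0 = u ∧ q (l.length + 1) = v ∧
      (∀ s, s < l.length + 1 → q (s + 1) ∈ N (q s)) ∧
      ∀ s, 0 < s → s < l.length + 1 → q s ∈ l := by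
  induction l generalizing u with
  | nil =>
    refine ⟨fun n => if n = 0 then u else v, by simp, by simp, ?_, ?_⟩
    · intro s hs
      have : s = 0 := by simpa using hs
      subst this
      simpa [Cn] using h
    · intro s h0 hs
      simp at hs
      omega
  | cons x l ih =>
    obtain ⟨hx, hl⟩ := h
    obtain ⟨q, h0, h1, h2, h3⟩ := ih x hl
    refine ⟨fun n => match n with
      | 0 => u
      | n + 1 => q n, rfl, ?_, ?_, ?_⟩
    · simpa using h1
    · intro s hs
      rcases s with _ | s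
      · simpa [h0] using hx
      · simp only [List.length_cons] at hs
        exact h2 s (by omega)
    · intro s hs0 hs
      rcases s with _ | s
      · omega
      · simp only [List.length_cons] at hs
        rcases s with _ | s
        · simp [h0]
        · exact List.mem_cons_of_mem _ (h3 (s + 1) (by omega) (by omega))

theorem t_gre : GREStmt := by
  intro V _ N k f hf hL
  obtain ⟨E, hE⟩ : ∃ E : Type, E = {e : Fin k × Fin k // e.1 < e.2} := ⟨_, rfl⟩
  have hL' : ∀ e : {e : Fin k × Fin k // e.1 < e.2},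
      Low N (1 / (16 * ((k : ℝ) + 1) ^ 6)) (f e.1.1) (f e.1.2) := fun e => hL _ _ e.2
  unfold Low at hL'
  choose I S p α hp h1 hC hη using hL'
  have hk : (0 : ℝ) ≤ k := Nat.cast_nonneg k
  obtain ⟨η, hηd⟩ : ∃ η : ℝ, η = 1 / (4 * ((k : ℝ) + 1) ^ 3) := ⟨_, rfl⟩
  have hη0 : 0 ≤ η := by rw [hηd]; positivity
  have hη2 : η ^ 2 = 1 / (16 * ((k : ℝ) + 1) ^ 6) := by
    rw [hηd, div_pow, mul_pow]
    norm_num
    ring
  have hcard : (Fintype.card {e : Fin k × Fin k // e.1 < e.2} : ℝ) ≤ (k : ℝ) ^ 2 := by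
    have h2 : Fintype.card {e : Fin k × Fin k // e.1 < e.2} ≤ Fintype.card (Fin k × Fin k) :=
      Fintype.card_subtype_le _
    rw [Fintype.card_prod, Fintype.card_fin] at h2
    calc (Fintype.card {e : Fin k × Fin k // e.1 < e.2} : ℝ) ≤ ((k * k : ℕ) : ℝ) := by
          exact_mod_cast h2
      _ = (k : ℝ) ^ 2 := by push_cast; ring
  have hFc : ((univ.image f).card : ℝ) ≤ k := by
    have h2 : (univ.image f).card ≤ k := by
      refine Finset.card_image_le.trans ?_
      simp
    exact_mod_cast h2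
  have htot : 4 * (Fintype.card {e : Fin k × Fin k // e.1 < e.2} : ℝ) ^ 2 * η ^ 2 + 1 / 4 +
      (univ.image f).card * η < 1 := by
    have h2 : (Fintype.card {e : Fin k × Fin k // e.1 < e.2} : ℝ) ^ 2 ≤ ((k : ℝ) ^ 2) ^ 2 :=
      pow_le_pow_left₀ (Nat.cast_nonneg _) hcard 2
    have h3 : 4 * (Fintype.card {e : Fin k × Fin k // e.1 < e.2} : ℝ) ^ 2 * η ^ 2 ≤ 1 / 4 := by
      have h4 : 4 * (Fintype.card {e : Fin k × Fin k // e.1 < e.2} : ℝ) ^ 2 * η ^ 2 ≤
          4 * ((k : ℝ) ^ 2) ^ 2 * η ^ 2 := by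
        refine mul_le_mul_of_nonneg_right ?_ (sq_nonneg _)
        linarith
      refine h4.trans ?_
      rw [hη2, mul_one_div, div_le_div_iff₀ (by positivity) (by norm_num)]
      have h5 : (k : ℝ) ^ 4 ≤ ((k : ℝ) + 1) ^ 4 := pow_le_pow_left₀ hk (by linarith) 4
      have h6 : ((k : ℝ) + 1) ^ 4 ≤ ((k : ℝ) + 1) ^ 6 :=
        pow_le_pow_right₀ (by linarith) (by norm_num)
      have h7 : ((k : ℝ) ^ 2) ^ 2 = (k : ℝ) ^ 4 := by ring
      rw [h7]
      linarith
    have h4 : ((univ.image f).card : ℝ) * η ≤ 1 / 4 := by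
      refine (mul_le_mul_of_nonneg_right hFc hη0).trans ?_
      rw [hηd, mul_one_div, div_le_div_iff₀ (by positivity) (by norm_num)]
      have h6 : ((k : ℝ) + 1) ^ 1 ≤ ((k : ℝ) + 1) ^ 3 :=
        pow_le_pow_right₀ (by linarith) (by norm_num)
      nlinarith
    linarith
  obtain ⟨s, hs1, hs2, hs3⟩ := gre_greedy S p α (univ.image f) η hp h1
    (fun e => by rw [hη2]; exact hη e) hη0 htot
  have hW : ∀ e : {e : Fin k × Fin k // e.1 < e.2}, ∃ (L : ℕ) (q : ℕ → V),
      q 0 = f e.1.1 ∧ q L = f e.1.2 ∧ (∀ t, t < L → q (t + 1) ∈ N (q t)) ∧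
      (∀ s t, s ≤ L → t ≤ L → q s = q t → s = t) ∧
      ∀ t, 0 < t → t < L → q t ∈ α e (s e) := by
    intro e
    obtain ⟨q, h0, hn, hA, hm⟩ := gre_path (α e (s e)) _ _ (hC e (s e) (hs1 e))
    obtain ⟨L, q', h0', hL', hA', hi', hm'⟩ := Pool.MRW.t_ext V (fun u w => w ∈ N u)
      ((α e (s e)).length + 1) q (f e.1.1) (f e.1.2) (fun h => (ne_of_lt e.2) (hf h)) h0 hn hA
    refine ⟨L, q', h0', hL', hA', hi', ?_⟩
    intro t ht0 ht
    obtain ⟨-, -, s', hs0, hsn, he⟩ := hm' t ht0 ht
    rw [he]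
    exact hm s' hs0 hsn
  choose L q hq0 hqL hqA hqi hqm using hW
  refine ⟨f, hf, fun i j => if h : i < j then L ⟨(i, j), h⟩ else 0,
    fun i j => if h : i < j then q ⟨(i, j), h⟩ else fun _ => f i, ?_, ?_⟩
  · intro i j hij
    simp only [dif_pos hij]
    refine ⟨hq0 ⟨(i, j), hij⟩, hqL ⟨(i, j), hij⟩, hqA ⟨(i, j), hij⟩, hqi ⟨(i, j), hij⟩, ?_⟩
    intro t m ht0 ht h
    have h2 := hs2 ⟨(i, j), hij⟩ _ (hqm ⟨(i, j), hij⟩ t ht0 ht)
    rw [h] at h2
    exact h2 (Finset.mem_image_of_mem f (mem_univ m))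
  · intro i j i' j' hij hij' hne a b ha0 ha hb0 hb h
    simp only [dif_pos hij, dif_pos hij'] at ha hb h
    have hne' : (⟨(i, j), hij⟩ : {e : Fin k × Fin k // e.1 < e.2}) ≠ ⟨(i', j'), hij'⟩ := by
      intro hc
      simp only [Subtype.mk.injEq, Prod.mk.injEq] at hc
      rcases hne with h | h
      · exact h hc.1
      · exact h hc.2
    have h2 := hs3 _ _ hne' _ (hqm ⟨(i, j), hij⟩ a ha0 ha)
    rw [h] at h2
    exact h2 (hqm ⟨(i', j'), hij'⟩ b hb0 hb)

end Pool.MAD
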